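import Pool.Agent.R602.Fin

/-!
# A Baire set of a realcompact space that is not realcompact

There is a model of ZF in which countable multiple choice fails, with a realcompact space and a
Baire set of it that is not realcompact.
The first half of the theorem is proved outright, the second half gives such a model from every
model of ZF. The definitions are in `Pool.Agent.R602.Defs`.
-/

namespace Pool.Agent.Results.MP_f2f7cf_lc.BaireNotRealcompact

open FirstOrder FirstOrder.Language
open Pool.Agent.Helper672.Plain (LSet El)
open Pool.Agent.H635Amen (ZF IsReals)
open Pool.Agent.H310Top (IsTopology)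
open Pool.Agent.R602St

universe u

/-- Countable multiple choice fails in the model `N`, and the model contains a
realcompact space `x` and a Baire set `b` of `x` that is not realcompact with the subspace topology
`t'`; `r` is the field of the real numbers of the model. -/
def Counterexample (N : Type u) [LSet.Structure N] : Prop :=
  ¬ CMC N ∧ ∃ (r : N) (_ : Field (El r)) (_ : LinearOrder (El r))
    (_ : IsStrictOrderedRing (El r)), IsReals r ∧ ∃ t x b t' : N, IsTopology t x ∧
      IsRealcompact r t x ∧ IsBaireSet r t x b ∧ IsSubTop t' b t ∧ ¬ IsRealcompact r t' b

theorem result :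
    (∃ (N : Type 1) (_ : LSet.Structure N), ZF N ∧ Counterexample N) ∧
    ∀ (M : Type u) [LSet.Structure M], ZF M →
      ∃ (N : Type u) (_ : LSet.Structure N), ZF N ∧ Counterexample N :=
  ⟨Pool.Agent.R602.exists_model_zs (fun N _ => Counterexample N) fun _ _ _ _ _ S =>
    Pool.Agent.R602.fin4 S,
   fun M _ h => Pool.Agent.R602.exists_model (fun N _ => Counterexample N) (fun _ _ _ _ _ S =>
    Pool.Agent.R602.fin4 S) M h⟩

end Pool.Agent.Results.MP_f2f7cf_lc.BaireNotRealcompact
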